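import Pool.Agent.V11250.EdrpFpt

/-!
# MP_fdecab_lc, Q1: answer no

Every ultrahomogeneous relational structure (with countable or uncountable age, of any
cardinality) which has the externally definable Ramsey property has the fixed points on type
spaces property. The definitions `EDRP`, `FPT`, `TypeOver` are in
`Pool.Agent.V11250.TypesOver`.
-/

set_option autoImplicit false

namespace Pool.Agent.Results.MP_fdecab_lc.EdrpImpliesFpt

open FirstOrder FirstOrder.Language Pool.Agent.V11250.TypesOver

universe u

/-- For every ultrahomogeneous structure in a relational language, whatever its age, the
externally definable Ramsey property implies the fixed points on type spaces property. So there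
is no ultrahomogeneous structure with uncountable age which has EDRP and fails FPT. -/
theorem result (L : FirstOrder.Language.{0, 0}) [L.IsRelational] (M : Type u) [L.Structure M]
    (hM : L.IsUltrahomogeneous M) : EDRP L M → FPT L M :=
  fun hE => fpt_of_edrp hM hE

end Pool.Agent.Results.MP_fdecab_lc.EdrpImpliesFpt
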